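import Pool.Agent.J4H3.EQ.Stm

set_option autoImplicit false

/-!
# Project EQ, piece (LOW): the lower bound for the number of zeros in a strip (helper87)
-/

namespace Pool.Agent.J4H87.EQ

open Complex MeasureTheory Filter Topology Set
open Pool.Agent.J4H4.NG (EE gam ell S_LOC S_REPR S_UPB S_FAR S_GOOD S_REP S_UPT S_GRO)
open Pool.Agent.J4H3.EQ

/-- finitely many zeros in a compact set -/
lemma fin_zeros {f : ℂ → ℂ} (hf : Differentiable ℂ f) (hne : ∃ z, f z ≠ 0) {K : Set ℂ} (hK : IsCompact K) :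
    {w : ℂ | w ∈ K ∧ f w = 0}.Finite := by
  by_contra hinf
  obtain ⟨z₀, _, hacc⟩ := Set.Infinite.exists_accPt_of_subset_isCompact (s := {w : ℂ | w ∈ K ∧ f w = 0}) hinf hK
    (fun w hw => hw.1)
  have hfreq : ∃ᶠ z in 𝓝[≠] z₀, f z = 0 := by
    rw [accPt_iff_frequently_nhdsNE] at hacc
    exact hacc.mono fun z hz => hz.2
  have han : AnalyticOnNhd ℂ f Set.univ := fun z _ => hf.analyticAt z
  have h0 := han.eqOn_zero_of_preconnected_of_frequently_eq_zero isPreconnected_univ (Set.mem_univ z₀) hfreq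
  obtain ⟨z, hz⟩ := hne
  exact hz (h0 (Set.mem_univ z))

lemma rect_compact (x1 x2 y1 y2 : ℝ) : IsCompact (Rect x1 x2 y1 y2) := by
  have h : Rect x1 x2 y1 y2 = Set.Icc x1 x2 ×ℂ Set.Icc y1 y2 := by
    ext w
    simp only [Rect, Set.mem_ofPred_eq, Complex.mem_reProdIm, Set.mem_Icc]
    tauto
  rw [h]
  exact isCompact_Icc.reProdIm isCompact_Icc

lemma gam_ne (v : ℝ) : gam (2 + I * v) ≠ 0 := by
  have hre : (2 + I * (v : ℂ)).re = 2 := by simp
  have h1 : (2 + I * (v : ℂ)) ≠ 0 := by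
    intro h
    have := congrArg Complex.re h
    rw [hre] at this
    simp at this
  have h2 : (2 + I * (v : ℂ)) - 1 ≠ 0 := by
    intro h
    have := congrArg Complex.re h
    rw [Complex.sub_re, hre] at this
    norm_num at this
  unfold gam
  exact mul_ne_zero (div_ne_zero (mul_ne_zero h1 h2) two_ne_zero)
    (Complex.Gammaℝ_ne_zero_of_re_pos (by rw [hre]; norm_num))

/-- the final computation -/
lemma arith {a D ε ρ T l N : ℝ} (ha : 0 < a) (hε : 0 < ε) (hρ : ρ = a * ε) (hD : 2 * ρ ≤ D) (hD2 : D ≤ 2 * a) (hT : 0 < T)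
    (hl : 0 < l) (h1 : 2 * a * l ≤ T) (h2 : 8 * a ≤ ε * ρ ^ 2 * l ^ 2)
    (h : (D - 2 * ρ) * l * (T - 2 * ρ * l) * (ρ ^ 2 * l ^ 2 / (8 * a) - 1) ≤
      N * (Real.pi * (ρ * l) ^ 2 / 2) + ρ ^ 2 * ε / 2 * T * l ^ 3) :
    (D / (4 * Real.pi * a) - ε) * T * l ≤ N := by
  have hρ0 : 0 < ρ := by rw [hρ]; positivity
  have hπ := Real.pi_gt_three
  have hP : 0 < Real.pi * (ρ * l) ^ 2 / 2 := by positivity
  rw [← mul_le_mul_iff_left₀ hP]
  have e1 : (D / (4 * Real.pi * a) - ε) * T * l * (Real.pi * (ρ * l) ^ 2 / 2) =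
      D * ρ ^ 2 / (8 * a) * (T * l ^ 3) - ε * Real.pi * ρ ^ 2 / 2 * (T * l ^ 3) := by
    field_simp
    ring
  have e2 : (D - 2 * ρ) * l * (T - 2 * ρ * l) * (ρ ^ 2 * l ^ 2 / (8 * a) - 1) =
      D * ρ ^ 2 / (8 * a) * (T * l ^ 3) - ε * ρ ^ 2 / 4 * (T * l ^ 3) - (D - 2 * ρ) * (ε * ρ ^ 2 / 4) * l ^ 4 - (D - 2 * ρ) * l * T +
        (D - 2 * ρ) * 2 * ρ * l ^ 2 := by
    rw [hρ]
    field_simp
    ring
  rw [e1]
  have k1 : 0 ≤ (D - 2 * ρ) * 2 * ρ * l ^ 2 := by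
    have : 0 ≤ D - 2 * ρ := by linarith
    positivity
  have k2 : (D - 2 * ρ) * (ε * ρ ^ 2 / 4) * l ^ 4 ≤ ε * ρ ^ 2 / 4 * (T * l ^ 3) := by
    have : (D - 2 * ρ) * l ≤ T := by nlinarith
    calc (D - 2 * ρ) * (ε * ρ ^ 2 / 4) * l ^ 4 = ε * ρ ^ 2 / 4 * (((D - 2 * ρ) * l) * l ^ 3) := by ring
      _ ≤ ε * ρ ^ 2 / 4 * (T * l ^ 3) := by gcongr
  have k3 : (D - 2 * ρ) * l * T ≤ ε * ρ ^ 2 / 4 * (T * l ^ 3) := by
    have : 4 * (D - 2 * ρ) ≤ ε * ρ ^ 2 * l ^ 2 := by linarith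
    have h5 : 0 ≤ l * T := by positivity
    nlinarith [mul_le_mul_of_nonneg_right this h5]
  have k4 : (3 : ℝ) * (ε * ρ ^ 2 / 2 * (T * l ^ 3)) ≤ ε * Real.pi * ρ ^ 2 / 2 * (T * l ^ 3) := by
    have h5 : 0 ≤ ε * ρ ^ 2 / 2 * (T * l ^ 3) := by positivity
    nlinarith
  have k5 : 0 ≤ ε * ρ ^ 2 * (T * l ^ 3) := by positivity
  rw [e2] at h
  nlinarith

theorem t_LOW : J_LOW := by
  intro hCNT hCAV hUPP hMASS hFAR hREP a α β ε ha hα hαβ hβ hε
  have hdiff : Differentiable ℂ (EE a) := by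
    have := (hREP (4 * a) (by linarith)).2.1
    have h4 : 4 * a / 4 = a := by ring
    rwa [h4] at this
  have hne : ∃ z, EE a z ≠ 0 := by
    obtain ⟨c, V₀, hc, _, h⟩ := hFAR a ha
    refine ⟨_, norm_pos_iff.1 (lt_of_lt_of_le (mul_pos hc (norm_pos_iff.2 (gam_ne V₀))) (h V₀ le_rfl))⟩
  rcases le_or_gt ((β - α) / (4 * Real.pi * a)) ε with hsmall | hbig
  · refine ⟨2, le_rfl, fun T hT => ⟨∅, by simp, ?_⟩⟩
    have hl : 0 ≤ Real.log T := Real.log_nonneg (by linarith)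
    simp only [Finset.sum_empty]
    have : (β - α) / (4 * Real.pi * a) - ε ≤ 0 := by linarith
    have h2 : 0 ≤ T * Real.log T := by positivity
    nlinarith
  have hπ := Real.pi_gt_three
  have hD : 4 * Real.pi * a * ε < β - α := by
    have h0 := (lt_div_iff₀ (show (0 : ℝ) < 4 * Real.pi * a by positivity)).1 hbig
    linarith
  have hDa : β - α ≤ 2 * a := by linarith
  set ρ : ℝ := a * ε with hρ
  have hρ0 : 0 < ρ := by positivity
  have hε1 : ε < 1 := by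
    have h1 : 12 * (a * ε) < 2 * a := by nlinarith
    nlinarith
  have hρD : 2 * ρ ≤ β - α := by nlinarith
  have hρa : ρ ≤ a := by nlinarith
  obtain ⟨A, T₁, hA, hT₁, hU⟩ := hUPP a a ha ha
  obtain ⟨hpc, hcav⟩ := hCAV
  obtain ⟨T₂, hT₂, hC⟩ := hcav a ρ ha hρ0
  obtain ⟨T₃, hT₃, hM⟩ := hMASS a A (ρ ^ 2 * ε / 2) ha (by positivity)
  have hlt : Tendsto Real.log atTop atTop := Real.tendsto_log_atTop
  have ev1 : ∀ᶠ T : ℝ in atTop, 2 * a * Real.log T ≤ T := by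
    have h1 : Tendsto (fun T : ℝ => Real.log T / T) atTop (𝓝 0) := by
      have := Real.isLittleO_log_id_atTop.tendsto_div_nhds_zero
      simpa using this
    have h2 : (0 : ℝ) < 1 / (2 * a) := by positivity
    filter_upwards [h1.eventually (gt_mem_nhds h2), eventually_gt_atTop 0] with T h3 h4
    rw [div_lt_div_iff₀ h4 (by positivity)] at h3
    linarith
  have ev2 : ∀ᶠ T : ℝ in atTop, 8 * a ≤ ε * ρ ^ 2 * (Real.log T) ^ 2 := by
    have h1 : Tendsto (fun T : ℝ => ε * ρ ^ 2 * (Real.log T) ^ 2) atTop atTop := by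
      apply Tendsto.const_mul_atTop (by positivity)
      exact (tendsto_pow_atTop (by norm_num)).comp hlt
    exact h1.eventually (eventually_ge_atTop _)
  obtain ⟨T₄, hT₄⟩ := eventually_atTop.1 (ev1.and ev2)
  refine ⟨max (max T₁ T₂) (max T₃ T₄), le_trans hT₁ (le_trans (le_max_left _ _) (le_max_left _ _)), ?_⟩
  intro T hT
  have g1 : T₁ ≤ T := le_trans (le_trans (le_max_left _ _) (le_max_left _ _)) hT
  have g2 : T₂ ≤ T := le_trans (le_trans (le_max_right _ _) (le_max_left _ _)) hT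
  have g3 : T₃ ≤ T := le_trans (le_trans (le_max_left _ _) (le_max_right _ _)) hT
  have g4 : T₄ ≤ T := le_trans (le_trans (le_max_right _ _) (le_max_right _ _)) hT
  obtain ⟨q1, q2⟩ := hT₄ T g4
  have hT2 : 2 ≤ T := hT₁.trans g1
  have hT0 : 0 < T := by linarith
  have hl0 : 0 < Real.log T := Real.log_pos (by linarith)
  set l : ℝ := Real.log T with hl
  set R := Rect (α * l) (β * l) T (2 * T) with hR
  have hfin := fin_zeros hdiff hne (rect_compact (α * l) (β * l) T (2 * T))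
  set S : Finset ℂ := hfin.toFinset with hS
  refine ⟨S, ?_, ?_⟩
  · intro w hw
    rw [hS, Set.Finite.mem_toFinset] at hw
    obtain ⟨⟨w1, w2, w3, w4⟩, w5⟩ := hw
    exact ⟨w5, w1, w2, w3, w4⟩
  have hr0 : 0 < ρ * l := by positivity
  have ex1 : α * l + ρ * l - ρ * l = α * l := by ring
  have ex2 : β * l - ρ * l + ρ * l = β * l := by ring
  have ey1 : T + ρ * l - ρ * l = T := by ring
  have ey2 : 2 * T - ρ * l + ρ * l = 2 * T := by ring
  have hL : 0 ≤ ρ ^ 2 * l ^ 2 / (8 * a) - 1 := by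
    rw [sub_nonneg, le_div_iff₀ (by positivity)]
    have h5 : 0 ≤ ρ ^ 2 * l ^ 2 := by positivity
    nlinarith
  have hsub : ∀ w ∈ R, |w.re| ≤ a * l ∧ T ≤ w.im ∧ w.im ≤ 2 * T := by
    rintro w ⟨w1, w2, w3, w4⟩
    refine ⟨abs_le.2 ⟨by nlinarith, by nlinarith⟩, w3, w4⟩
  have key := hCNT (EE a) (fun w => pot a w + A * l) (α * l + ρ * l) (β * l - ρ * l) (T + ρ * l) (2 * T - ρ * l) (ρ * l)
    (ρ ^ 2 * l ^ 2 / (8 * a) - 1) (ρ ^ 2 * ε / 2 * T * l ^ 3) S hdiff hne ((hpc a).add continuous_const) hr0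
    (by nlinarith) (by nlinarith) hL (by positivity) ?_ ?_ ?_ ?_
  · have h6 : β * l - ρ * l - (α * l + ρ * l) = (β - α - 2 * ρ) * l := by ring
    have h7 : 2 * T - ρ * l - (T + ρ * l) = T - 2 * ρ * l := by ring
    rw [h6, h7] at key
    exact arith ha hε hρ hρD hDa hT0 hl0 q1 q2 key
  · rw [ex1, ex2, ey1, ey2]
    intro w hw hfw
    obtain ⟨w1, w2, _⟩ := hsub w hw
    exact hU T g1 w w1 (by linarith) hfw
  · rw [ex1, ex2, ey1, ey2]
    intro w hw hfw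
    rw [hS, Set.Finite.mem_toFinset]
    exact ⟨hw, hfw⟩
  · rintro c ⟨c1, c2, c3, c4⟩
    have h8 := hC T g2 c (ρ * l) (by nlinarith) hr0 le_rfl
    have h9 : Real.circleAverage (fun w => pot a w + A * l) c (ρ * l) = Real.circleAverage (pot a) c (ρ * l) + A * l := by
      have h12 : (fun w => pot a w + A * l) = pot a + fun _ => A * l := rfl
      rw [h12, Real.circleAverage_add ((hpc a).continuousOn.circleIntegrable') (continuous_const.continuousOn.circleIntegrable'),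
        Real.circleAverage_const]
    rw [h9]
    have h10 := (abs_le.1 h8).1
    have h11 : (ρ * l) ^ 2 / (8 * a) = ρ ^ 2 * l ^ 2 / (8 * a) := by ring
    rw [h11] at h10
    linarith
  · rw [ex1, ex2, ey1, ey2]
    refine le_trans (lintegral_mono_set ?_) (hM T g3)
    intro w hw
    obtain ⟨w1, w2, w3⟩ := hsub w hw
    exact ⟨(abs_le.1 w1).1, (abs_le.1 w1).2, w2, w3⟩

end Pool.Agent.J4H87.EQ
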